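import Mathlib
import Pool.Agent.H556.CP.Main

/-!
# Divisors of Fermat numbers near algebraic multiples of `S`-units

`F_m = 2 ^ 2 ^ m + 1`. Let `α` be a real algebraic number, let `S` be a finite set of primes and let
`ε > 0`. We prove that for all sufficiently large `m` no divisor `a = F_m ^ x`, `ε ≤ x ≤ 1 - ε`, of
`F_m` lies within the distance `F_m ^ (x ^ 2 - ε)` of a number `α u`, where `u` is any rational number
composed of the primes of `S` (of height at most `F_m ^ K`), for instance `u = 2 ^ i 3 ^ j 5 ^ k`, or,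
more generally, such a number times a rational number `c / d` with `|c|, |d| ≤ F_m ^ η`.

In other words, if `F_m = a b` with `a = F_m ^ x`, then `|a / (α u) - 1| > F_m ^ (-x (1 - x) - ε)`; for
two factors of about the same size the exponent is `-1 / 4 - ε`. Taking `u = c 2 ^ k`: in the binary
expansion of `a / α` no block of digits which begins after at most `η 2 ^ m` digits and has length
`(x (1 - x) + ε) 2 ^ m` consists of equal digits.

The exponent `x ^ 2` is the one of Coppersmith's theorem (a divisor `N ^ x` of `N` can be computed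
from an approximation with error `N ^ (x ^ 2)`). For irrational `α` there is no such algorithmic
argument; here the subspace theorem is used.

Proof. Let `T = 2 ^ 2 ^ m`, `z = a / u`, `z' = u b / T`, so that `T z z' = T + 1`. If `T` and `z` satisfy
no polynomial relation with fixed coefficients, the subspace theorem is applied to the products
`T ^ ω z ^ i` (`0 ≤ i ≤ B`), `T ^ ω z' ^ l` (`1 ≤ l ≤ A`), `0 ≤ ω ≤ M`, which are `S`-integers up to
small denominators, with the basis of the `T ^ ω z' ^ max (k - B, 0) (z - α) ^ k`, `0 ≤ k ≤ A + B`, at the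
real place; `A`, `B` are about `x c`, `(1 - x) c` for a large number `c`. If there is a relation then
`z` has a Puiseux expansion in `T`, the subspace theorem shows that a bounded multiple of `a` is a
short sum of `S`-units, and this is impossible for large divisors of Fermat numbers
(`Pool.Agent.H556.FG.main`).
-/

set_option autoImplicit false

namespace Pool.Agent.Results.MP_37e5fa_nt.DivisorsNearUnits

open Nat (fermatNumber)

/-- `u = (c / d) w`, where `c`, `d` are integers of absolute value at most `C`, and `w` is a nonzero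
rational number with numerator and denominator at most `H` (in absolute value), both composed of the
primes of `S`. -/
def AlmostUnit (S : Finset ℕ) (C H : ℝ) (u : ℚ) : Prop :=
  ∃ (c d : ℤ) (w : ℚ), d ≠ 0 ∧ |(c : ℝ)| ≤ C ∧ |(d : ℝ)| ≤ C ∧ w ≠ 0 ∧
    (∀ p : ℕ, p.Prime → (p ∣ w.num.natAbs ∨ p ∣ w.den) → p ∈ S) ∧
    |(w.num : ℝ)| ≤ H ∧ (w.den : ℝ) ≤ H ∧ u = (c : ℚ) / d * w

theorem result (S : Finset ℕ) (α : ℝ) (hα : IsAlgebraic ℚ α) (K ε : ℝ) (hε : 0 < ε) :
    ∃ η : ℝ, 0 < η ∧ ∃ m₀ : ℕ, ∀ m ≥ m₀, ∀ u : ℚ,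
      AlmostUnit S ((fermatNumber m : ℝ) ^ η) ((fermatNumber m : ℝ) ^ K) u →
      ∀ a : ℕ, a ∣ fermatNumber m → ∀ x : ℝ, ε ≤ x → x ≤ 1 - ε →
      (a : ℝ) = (fermatNumber m : ℝ) ^ x →
      (fermatNumber m : ℝ) ^ (x ^ 2 - ε) < |(a : ℝ) - α * (u : ℝ)| := by
  obtain ⟨η, hη, m₀, h⟩ := Pool.Agent.H556.CP.near S α hα K ε hε
  refine ⟨η, hη, m₀, fun m hm u hu a ha x hx1 hx2 hax => ?_⟩
  obtain ⟨c, d, w, hd0, hc, hd, hw0, hwS, hwn, hwd, rfl⟩ := hu
  obtain ⟨b, hb⟩ := ha
  have hF1 : (1 : ℝ) < fermatNumber m := by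
    have := Nat.three_le_fermatNumber m
    exact_mod_cast (by omega : 1 < fermatNumber m)
  have hF0 : (0 : ℝ) < fermatNumber m := by linarith
  have hlF : 0 < Real.log (fermatNumber m) := Real.log_pos hF1
  have ha1 : (fermatNumber m : ℝ) ^ ε ≤ a := by
    rw [hax]
    exact Real.rpow_le_rpow_of_exponent_le hF1.le hx1
  have hb1 : (fermatNumber m : ℝ) ^ ε ≤ b := by
    have h1 : (a : ℝ) * b = fermatNumber m := by exact_mod_cast hb.symm
    have h2 : (fermatNumber m : ℝ) ^ x * (fermatNumber m : ℝ) ^ (1 - x) = fermatNumber m := by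
      rw [← Real.rpow_add hF0, add_sub_cancel, Real.rpow_one]
    have h3 : 0 < (fermatNumber m : ℝ) ^ x := Real.rpow_pos_of_pos hF0 _
    have h4 : (b : ℝ) = (fermatNumber m : ℝ) ^ (1 - x) := by
      rw [hax] at h1
      have : (fermatNumber m : ℝ) ^ x * b = (fermatNumber m : ℝ) ^ x * (fermatNumber m : ℝ) ^ (1 - x) := by
        rw [h1, h2]
      exact mul_left_cancel₀ h3.ne' this
    rw [h4]
    exact Real.rpow_le_rpow_of_exponent_le hF1.le (by linarith)
  have key := h m hm c d w hd0 hc hd hw0 hwS hwn hwd a b hb.symm ha1 hb1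
  have hx : Real.log a / Real.log (fermatNumber m) = x := by
    rw [hax, Real.log_rpow hF0]
    field_simp
  rw [hx] at key
  have h5 : (a : ℝ) ^ x * (fermatNumber m : ℝ) ^ (-ε) = (fermatNumber m : ℝ) ^ (x ^ 2 - ε) := by
    rw [hax, ← Real.rpow_mul hF0.le, ← Real.rpow_add hF0]
    congr 1
    ring
  rw [h5] at key
  push_cast
  exact key

end Pool.Agent.Results.MP_37e5fa_nt.DivisorsNearUnits
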