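import Mathlib
import Pool.Agent.H556.FG.Seq

/-!
# Large divisors of Fermat numbers do not divide short sums of `S`-units

`F_m = 2 ^ 2 ^ m + 1`. Let `S` be a finite set of primes, `r ≥ 1`, and let `K` and `δ > 0` be real
numbers. There is `ε > 0` such that for all sufficiently large `m` the following holds. Let
`G = c_1 u_1 + ... + c_r u_r`, where the `c_i` are integers of absolute value at most `F_m ^ ε`, and
the `u_i` are rational numbers composed of the primes of `S`, with numerator and denominator at most
`F_m ^ K`. Then either `F_m` divides (the numerator of) `G`, or the greatest common divisor of `F_m`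
and `G` is less than `F_m ^ δ`. In particular no proper divisor `d ≥ F_m ^ δ` of `F_m`, and none of
its nonzero multiples below `F_m`, is a sum of `r` such terms.

For instance, for large `m` no proper divisor of `F_m` above `F_m ^ δ` has a multiple below `F_m` of
the form `n ± 2 ^ a ± 3 ^ b ± 5 ^ c ± 2 ^ d 3 ^ e ...` (`r` terms, `n` small), and two numbers of the form
`2 ^ a 3 ^ b 5 ^ c`, `a, b, c ≤ K 2 ^ m`, which are congruent modulo a divisor `d ≥ F_m ^ δ` of `F_m`
are congruent modulo `F_m`.

Proof: the counterexamples give a germ of a sequence along an ultrafilter. The group of the germs of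
`S`-units has, modulo the units of negligible height, generators `T_1, …, T_k` which are
algebraically independent over the field `κ` of negligible germs (subspace theorem), and
`F_m = 1 + c T_1 ^ e` is irreducible over `κ`, by the theorem of Vahlen and Capelli and as `2 ^ m`
has no odd divisors and `2 ^ m - 2` is not divisible by `4`. By the theorem on the greatest common
divisors of coprime polynomials at moving `S`-unit points `G` is divisible by `F_m`, first over `κ`
and then over the ring of `S`-integers.
-/

set_option autoImplicit false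

namespace Pool.Agent.Results.MP_37e5fa_nt.GcdShortUnitSums

open Nat (fermatNumber)

/-- `g` is a sum of `r` terms `c u`, where `c` is an integer of absolute value at most `C`, and `u`
is a nonzero rational number with numerator and denominator at most `H`, whose prime factors (of the
numerator and of the denominator) belong to `S`. -/
def IsShort (S : Finset ℕ) (r : ℕ) (C H : ℝ) (g : ℚ) : Prop :=
  ∃ (c : Fin r → ℤ) (u : Fin r → ℚ), (∀ i, |(c i : ℝ)| ≤ C) ∧ (∀ i, u i ≠ 0) ∧
    (∀ i, ∀ p : ℕ, p.Prime → (p ∣ (u i).num.natAbs ∨ p ∣ (u i).den) → p ∈ S) ∧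
    (∀ i, |((u i).num : ℝ)| ≤ H ∧ ((u i).den : ℝ) ≤ H) ∧ g = ∑ i, (c i : ℚ) * u i

theorem result (S : Finset ℕ) (r : ℕ) (K δ : ℝ) (hδ : 0 < δ) :
    ∃ ε : ℝ, 0 < ε ∧ ∃ m₀ : ℕ, ∀ m ≥ m₀, ∀ g : ℚ,
      IsShort S r ((fermatNumber m : ℝ) ^ ε) ((fermatNumber m : ℝ) ^ K) g →
      (fermatNumber m : ℤ) ∣ g.num ∨
        (Int.gcd g.num (fermatNumber m) : ℝ) < (fermatNumber m : ℝ) ^ δ := by
  obtain ⟨ε, hε, m₀, h⟩ := Pool.Agent.H556.FG.main S r K δ hδ
  refine ⟨ε, hε, m₀, fun m hm g hg => ?_⟩
  obtain ⟨c, u, h1, h2, h3, h4, rfl⟩ := hg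
  by_cases hF : (fermatNumber m : ℤ) ∣ (∑ i, (c i : ℚ) * u i).num
  · exact Or.inl hF
  · right
    apply h m hm c u h1 h2 h3 h4 hF
    · exact_mod_cast Int.gcd_dvd_right (∑ i, (c i : ℚ) * u i).num (fermatNumber m : ℤ)
    · exact Int.gcd_dvd_left _ _

end Pool.Agent.Results.MP_37e5fa_nt.GcdShortUnitSums
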