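import Mathlib
import Pool.Agent.H556.SQ.Fin

/-!
# Linear forms at the representations of Fermat numbers by `X² + Y²` and `X² + 2Y²`

A Fermat number `F = 2^(2^m) + 1` has the trivial representations `F = (2^(2^(m-1)))² + 1²` and
`F = (2^(2^(m-1)) - 1)² + 2 (2^(2^(m-2)))²`, and it is prime if and only if it has, up to signs and
order, no other representation by the first form, and if and only if it has no other
representation by the second form (Euler). The theorem says that at a nontrivial representation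
`(X, Y)` of a large Fermat number by one of the two forms no linear form `λX + μY` with fixed real
algebraic coefficients is small: its absolute value exceeds `2^k F^(1/4 - ε)`, where `2^k` is the
power of two dividing `XY`.
-/

set_option autoImplicit false

namespace Pool.Agent.Results.MP_37e5fa_nt.LinearFormsAtRepresentations

open Nat (fermatNumber)

/-- **Linear forms at representations of Fermat numbers.** -/
theorem result (lam mu : ℝ) (hlam : IsAlgebraic ℚ lam) (hmu : IsAlgebraic ℚ mu)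
    (hne : lam ≠ 0 ∨ mu ≠ 0) (ε : ℝ) (hε : 0 < ε) :
    ∃ m₀ : ℕ, ∀ m ≥ m₀, ∀ X Y : ℤ,
      ((X ^ 2 + Y ^ 2 = fermatNumber m ∧ |X| ≠ 1 ∧ |Y| ≠ 1) ∨
        (X ^ 2 + 2 * Y ^ 2 = fermatNumber m ∧ |Y| ≠ 2 ^ 2 ^ (m - 2))) →
      ∀ k : ℕ, (2 : ℤ) ^ k ∣ X * Y →
        (2 : ℝ) ^ k * (fermatNumber m : ℝ) ^ (1 / 4 - ε) < |lam * X + mu * Y| := by
  obtain ⟨m₁, h1⟩ := Pool.Agent.H556.SQ.main_one hlam hmu hne hε
  obtain ⟨m₂, h2⟩ := Pool.Agent.H556.SQ.main_two hlam hmu hne hε
  refine ⟨max m₁ m₂, fun m hm X Y h k hk => ?_⟩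
  rcases h with ⟨h3, h4, h5⟩ | ⟨h3, h4⟩
  · exact h1 m (le_trans (le_max_left _ _) hm) X Y h3 h4 h5 k hk
  · exact h2 m (le_trans (le_max_right _ _) hm) X Y h3 h4 k hk

end Pool.Agent.Results.MP_37e5fa_nt.LinearFormsAtRepresentations
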