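import Mathlib
import Pool.Agent.H556.DV.Fin

/-!
# Divisors of Fermat numbers and linear forms with `S`-unit coefficients

`F_m = 2 ^ 2 ^ m + 1`. Let `S` be a finite set of primes and `ε > 0`. We prove that for all
sufficiently large `m`, every divisor `a = F_m ^ x` of `F_m` with `ε ≤ x ≤ 1 - ε`, and all coprime
integers `u`, `v` composed of the primes of `S` (of absolute value at most `F_m ^ K`) the part of the
integer `u a + v` which is composed of primes outside of `S` is greater than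
`max (|u| a, |v|) F_m ^ (-x (1 - x) - ε)`; in particular it is greater than `F_m ^ (x ^ 2 - ε)`. The
coefficients `u`, `v` may be multiplied by any integers `c`, `d` of absolute value at most `F_m ^ η`.

For instance (`S = {2}`, `u = 1`, `v = -1`) if `a = k 2 ^ n + 1` divides `F_m`, then
`k > F_m ^ (x ^ 2 - ε)`, that is `2 ^ n < F_m ^ (x (1 - x) + ε)`. The elementary bounds are
`2 ^ n ≤ F_m ^ x` and, for `x ≤ 1 / 2`, `2 ^ n ≤ F_m ^ ((1 - x) / 2)` (approximately).

Proof. Let `T = 2 ^ 2 ^ m`, `F_m = a b`, `z = -c u a / (d v)`, `z' = -d v b / (c u T)`, so that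
`T z z' = T + 1`. If `c u a + d v = k s` with an `S`-unit `s` and small `k`, then the product of the
distances of `z` and `1` at the real place and at the primes of `S` is small. If `T` and `z` satisfy no
polynomial relation with fixed coefficients, the subspace theorem is applied to the products
`T ^ ω z ^ i` (`0 ≤ i ≤ B`), `T ^ ω z' ^ l` (`1 ≤ l ≤ A`), `0 ≤ ω ≤ M`, with the basis of the
`T ^ ω z' ^ max (k - B, 0) (z - 1) ^ k`, `0 ≤ k ≤ A + B`, at the places where `z` is close to `1`. If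
there is a relation then `z` has a Puiseux expansion in `T`, the subspace theorem shows that a bounded
multiple of `a` is a short sum of `S`-units, and this is impossible for large divisors of Fermat
numbers.
-/

set_option autoImplicit false

namespace Pool.Agent.Results.MP_37e5fa_nt.SFreePartsOfLinearForms

open Nat (fermatNumber)

theorem result (S : Finset ℕ) (K ε : ℝ) (hε : 0 < ε) :
    ∃ η : ℝ, 0 < η ∧ ∃ m₀ : ℕ, ∀ m ≥ m₀, ∀ a : ℕ, a ∣ fermatNumber m →
      ∀ x : ℝ, ε ≤ x → x ≤ 1 - ε → (a : ℝ) = (fermatNumber m : ℝ) ^ x →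
      ∀ u v s : ℤ, u ≠ 0 → v ≠ 0 → s ≠ 0 → (∀ p : ℕ, p.Prime → (p : ℤ) ∣ u * v * s → p ∈ S) →
      IsCoprime u v → |(u : ℝ)| ≤ (fermatNumber m : ℝ) ^ K → |(v : ℝ)| ≤ (fermatNumber m : ℝ) ^ K →
      ∀ c d k : ℤ, c ≠ 0 → d ≠ 0 → |(c : ℝ)| ≤ (fermatNumber m : ℝ) ^ η →
      |(d : ℝ)| ≤ (fermatNumber m : ℝ) ^ η → c * u * a + d * v = k * s →
      max (|(u : ℝ)| * a) |(v : ℝ)| * (fermatNumber m : ℝ) ^ (-(x * (1 - x)) - ε) < |(k : ℝ)| := by
  obtain ⟨η, hη, m₀, h⟩ := Pool.Agent.H556.DV.near_fermat S K ε hε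
  refine ⟨η, hη, m₀, fun m hm a ha x hx1 hx2 hax u v s hu0 hv0 hs0 hp huv hu hv c d k hc0 hd0 hc hd
    hrel => ?_⟩
  obtain ⟨b, hb⟩ := ha
  have hF1 : (1 : ℝ) < fermatNumber m := by
    have := Nat.three_le_fermatNumber m
    exact_mod_cast (by omega : 1 < fermatNumber m)
  have hF0 : (0 : ℝ) < fermatNumber m := by linarith
  have hlF : 0 < Real.log (fermatNumber m) := Real.log_pos hF1
  have ha1 : (fermatNumber m : ℝ) ^ ε ≤ a := by
    rw [hax]
    exact Real.rpow_le_rpow_of_exponent_le hF1.le hx1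
  have hb1 : (fermatNumber m : ℝ) ^ ε ≤ b := by
    have h1 : (a : ℝ) * b = fermatNumber m := by exact_mod_cast hb.symm
    have h2 : (fermatNumber m : ℝ) ^ x * (fermatNumber m : ℝ) ^ (1 - x) = fermatNumber m := by
      rw [← Real.rpow_add hF0, add_sub_cancel, Real.rpow_one]
    have h3 : 0 < (fermatNumber m : ℝ) ^ x := Real.rpow_pos_of_pos hF0 _
    have h4 : (b : ℝ) = (fermatNumber m : ℝ) ^ (1 - x) := by
      rw [hax] at h1
      have : (fermatNumber m : ℝ) ^ x * b =
          (fermatNumber m : ℝ) ^ x * (fermatNumber m : ℝ) ^ (1 - x) := by rw [h1, h2]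
      exact mul_left_cancel₀ h3.ne' this
    rw [h4]
    exact Real.rpow_le_rpow_of_exponent_le hF1.le (by linarith)
  have key := h m hm a b hb.symm ha1 hb1 c d u v k s hc0 hd0 hc hd hu0 hv0 hs0 hp huv hu hv hrel
  have hx : Real.log a / Real.log (fermatNumber m) = x := by
    rw [hax, Real.log_rpow hF0]
    field_simp
  rw [hx] at key
  exact key

end Pool.Agent.Results.MP_37e5fa_nt.SFreePartsOfLinearForms
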